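import Mathlib

set_option autoImplicit false

open MeasureTheory Set
open scoped Pointwise

namespace Pool.Agent.MP_c7fc41_gt

/-- coordinates on Euclidean 4-space as a product of two planes -/
def phi : EuclideanSpace ℝ (Fin 4) → (ℝ × ℝ) × (ℝ × ℝ) :=
  fun x => ((x 0, x 1), (x 2, x 3))

lemma phi_mp : MeasurePreserving phi volume volume := by
  have h1 := PiLp.volume_preserving_ofLp (Fin 4)
  have h2 := volume_preserving_piFinSuccAbove (fun _ : Fin 4 => ℝ) 0
  have h3 := volume_preserving_piFinSuccAbove (fun _ : Fin 3 => ℝ) 0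
  have h4 := volume_preserving_finTwoArrow ℝ
  have h5 : MeasurePreserving (Prod.map (id : ℝ → ℝ) (MeasurableEquiv.piFinSuccAbove (fun _ : Fin 3 => ℝ) 0))
      (volume.prod volume) (volume.prod volume) :=
    (MeasurePreserving.id (volume : Measure ℝ)).prod h3
  have h6 : MeasurePreserving (Prod.map (id : ℝ → ℝ) (Prod.map (id : ℝ → ℝ) (MeasurableEquiv.finTwoArrow (α := ℝ))))
      (volume.prod (volume.prod volume)) (volume.prod (volume.prod volume)) :=
    (MeasurePreserving.id (volume : Measure ℝ)).prod ((MeasurePreserving.id (volume : Measure ℝ)).prod h4)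
  have h7 : MeasurePreserving (MeasurableEquiv.prodAssoc (α := ℝ) (β := ℝ) (γ := ℝ × ℝ)).symm volume volume :=
    (volume_preserving_prodAssoc (α₁ := ℝ) (β₁ := ℝ) (γ₁ := ℝ × ℝ)).symm
  exact h7.comp (h6.comp (h5.comp (h2.comp h1)))

/-- the linear functional on the plane with coefficient vector `v` -/
def lf (v p : ℝ × ℝ) : ℝ := v.1 * p.1 + v.2 * p.2

@[fun_prop]
lemma continuous_lf (v : ℝ × ℝ) : Continuous (lf v) := by
  unfold lf; fun_prop

lemma lf_add (v p q : ℝ × ℝ) : lf v (p + q) = lf v p + lf v q := by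
  simp only [lf, Prod.fst_add, Prod.snd_add]; ring

lemma lf_sub (v p q : ℝ × ℝ) : lf v (p - q) = lf v p - lf v q := by
  simp only [lf, Prod.fst_sub, Prod.snd_sub]; ring

lemma lf_smul (v p : ℝ × ℝ) (t : ℝ) : lf v (t • p) = t * lf v p := by
  simp only [lf, Prod.smul_fst, Prod.smul_snd, smul_eq_mul]; ring

/-- square box -/
def box (R : ℝ) : Set (ℝ × ℝ) := Icc (-R) R ×ˢ Icc (-R) R

lemma measurableSet_box (R : ℝ) : MeasurableSet (box R) :=
  measurableSet_Icc.prod measurableSet_Icc

lemma volume_box (R : ℝ) : volume (box R) = ENNReal.ofReal (2 * R) * ENNReal.ofReal (2 * R) := by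
  unfold box
  rw [Measure.volume_eq_prod, Measure.prod_prod, Real.volume_Icc]
  congr 1 <;> congr 1 <;> ring

/-- The area of the part of a strip in a box. -/
lemma volume_strip (v : ℝ × ℝ) (hv : v ≠ 0) (R : ℝ) (hR : 0 ≤ R) :
    ∃ M : ℝ, 0 ≤ M ∧ ∀ (c δ : ℝ), 0 ≤ δ →
      volume (box R ∩ {p | |lf v p - c| ≤ δ}) ≤ ENNReal.ofReal (M * δ) := by
  by_cases h2 : v.2 = 0
  · have h1 : v.1 ≠ 0 := by
      intro h1; exact hv (Prod.ext h1 h2)
    have h1' : 0 < |v.1| := abs_pos.mpr h1
    refine ⟨2 / |v.1| * (2 * R), by positivity, fun c δ hδ => ?_⟩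
    have hsub : box R ∩ {p | |lf v p - c| ≤ δ} ⊆
        Icc (c / v.1 - δ / |v.1|) (c / v.1 + δ / |v.1|) ×ˢ Icc (-R) R := by
      rintro p ⟨hp, hp2⟩
      simp only [mem_ofPred_eq, lf, h2, zero_mul, add_zero] at hp2
      refine ⟨?_, hp.2⟩
      have h3 : |p.1 - c / v.1| ≤ δ / |v.1| := by
        rw [le_div_iff₀ h1', ← abs_mul]
        have : (p.1 - c / v.1) * v.1 = v.1 * p.1 - c := by field_simp
        rw [this]; exact hp2
      rw [abs_le] at h3
      constructor <;> [linarith [h3.1]; linarith [h3.2]]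
    refine (measure_mono hsub).trans ?_
    rw [Measure.volume_eq_prod, Measure.prod_prod, Real.volume_Icc, Real.volume_Icc,
      ← ENNReal.ofReal_mul (by ring_nf; positivity)]
    apply ENNReal.ofReal_le_ofReal
    apply le_of_eq
    field_simp
    ring
  · have h2' : 0 < |v.2| := abs_pos.mpr h2
    refine ⟨2 / |v.2| * (2 * R), by positivity, fun c δ hδ => ?_⟩
    have hmeas : MeasurableSet (box R ∩ {p | |lf v p - c| ≤ δ}) := by
      refine (measurableSet_box R).inter (measurableSet_le ?_ measurable_const)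
      have : Continuous fun p => |lf v p - c| := by fun_prop
      exact this.measurable
    rw [Measure.volume_eq_prod, Measure.prod_apply hmeas]
    calc ∫⁻ x, volume (Prod.mk x ⁻¹' (box R ∩ {p | |lf v p - c| ≤ δ}))
        ≤ ∫⁻ x, (Icc (-R) R).indicator (fun _ => ENNReal.ofReal (2 * δ / |v.2|)) x := by
          apply lintegral_mono
          intro x
          by_cases hx : x ∈ Icc (-R) R
          · rw [indicator_of_mem hx]
            have hsub : Prod.mk x ⁻¹' (box R ∩ {p | |lf v p - c| ≤ δ}) ⊆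
                Icc ((c - v.1 * x) / v.2 - δ / |v.2|) ((c - v.1 * x) / v.2 + δ / |v.2|) := by
              rintro y ⟨-, hy⟩
              simp only [mem_ofPred_eq, lf] at hy
              have h3 : |y - (c - v.1 * x) / v.2| ≤ δ / |v.2| := by
                rw [le_div_iff₀ h2', ← abs_mul]
                have : (y - (c - v.1 * x) / v.2) * v.2 = v.1 * x + v.2 * y - c := by
                  field_simp; ring
                rw [this]; exact hy
              rw [abs_le] at h3
              constructor <;> [linarith [h3.1]; linarith [h3.2]]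
            refine (measure_mono hsub).trans ?_
            rw [Real.volume_Icc]
            apply ENNReal.ofReal_le_ofReal
            apply le_of_eq
            ring
          · rw [indicator_of_notMem hx]
            have : Prod.mk x ⁻¹' (box R ∩ {p | |lf v p - c| ≤ δ}) = ∅ := by
              ext y
              simp only [mem_preimage, mem_inter_iff, mem_empty_iff_false, iff_false, not_and]
              intro h
              exact absurd h.1 hx
            simp only [this, measure_empty, le_refl]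
      _ = ENNReal.ofReal (2 * δ / |v.2|) * volume (Icc (-R) R) := by
          rw [lintegral_indicator measurableSet_Icc, setLIntegral_const]
      _ ≤ ENNReal.ofReal (2 / |v.2| * (2 * R) * δ) := by
          rw [Real.volume_Icc, ← ENNReal.ofReal_mul (by positivity)]
          apply ENNReal.ofReal_le_ofReal
          apply le_of_eq
          ring

/-- The area of the intersection of two transversal strips. -/
lemma volume_cross (v w : ℝ × ℝ) (hD : v.1 * w.2 - v.2 * w.1 ≠ 0) :
    ∃ M : ℝ, 0 ≤ M ∧ ∀ (c d δ : ℝ), 0 ≤ δ →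
      volume {p : ℝ × ℝ | |lf v p - c| ≤ δ ∧ |lf w p - d| ≤ δ} ≤ ENNReal.ofReal (M * δ ^ 2) := by
  set D := v.1 * w.2 - v.2 * w.1 with hDdef
  have hD' : 0 < |D| := abs_pos.mpr hD
  refine ⟨(2 * (|w.2| + |v.2|) / |D|) * (2 * (|w.1| + |v.1|) / |D|), by positivity,
    fun c d δ hδ => ?_⟩
  have hsub : {p : ℝ × ℝ | |lf v p - c| ≤ δ ∧ |lf w p - d| ≤ δ} ⊆
      Icc ((w.2 * c - v.2 * d) / D - (|w.2| + |v.2|) * δ / |D|)
        ((w.2 * c - v.2 * d) / D + (|w.2| + |v.2|) * δ / |D|) ×ˢ
      Icc ((v.1 * d - w.1 * c) / D - (|w.1| + |v.1|) * δ / |D|)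
        ((v.1 * d - w.1 * c) / D + (|w.1| + |v.1|) * δ / |D|) := by
    rintro p ⟨hp1, hp2⟩
    have e1 : |p.1 - (w.2 * c - v.2 * d) / D| ≤ (|w.2| + |v.2|) * δ / |D| := by
      rw [le_div_iff₀ hD', ← abs_mul]
      have : (p.1 - (w.2 * c - v.2 * d) / D) * D
          = w.2 * (lf v p - c) - v.2 * (lf w p - d) := by
        have : (p.1 - (w.2 * c - v.2 * d) / D) * D = p.1 * D - (w.2 * c - v.2 * d) := by
          field_simp
        rw [this, hDdef]
        simp only [lf]; ring
      rw [this]
      calc |w.2 * (lf v p - c) - v.2 * (lf w p - d)|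
          ≤ |w.2 * (lf v p - c)| + |v.2 * (lf w p - d)| := abs_sub _ _
        _ = |w.2| * |lf v p - c| + |v.2| * |lf w p - d| := by rw [abs_mul, abs_mul]
        _ ≤ |w.2| * δ + |v.2| * δ := by gcongr
        _ = (|w.2| + |v.2|) * δ := by ring
    have e2 : |p.2 - (v.1 * d - w.1 * c) / D| ≤ (|w.1| + |v.1|) * δ / |D| := by
      rw [le_div_iff₀ hD', ← abs_mul]
      have : (p.2 - (v.1 * d - w.1 * c) / D) * D
          = v.1 * (lf w p - d) - w.1 * (lf v p - c) := by
        have : (p.2 - (v.1 * d - w.1 * c) / D) * D = p.2 * D - (v.1 * d - w.1 * c) := by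
          field_simp
        rw [this, hDdef]
        simp only [lf]; ring
      rw [this]
      calc |v.1 * (lf w p - d) - w.1 * (lf v p - c)|
          ≤ |v.1 * (lf w p - d)| + |w.1 * (lf v p - c)| := abs_sub _ _
        _ = |v.1| * |lf w p - d| + |w.1| * |lf v p - c| := by rw [abs_mul, abs_mul]
        _ ≤ |v.1| * δ + |w.1| * δ := by gcongr
        _ = (|w.1| + |v.1|) * δ := by ring
    rw [abs_le] at e1 e2
    refine ⟨⟨?_, ?_⟩, ⟨?_, ?_⟩⟩ <;> linarith [e1.1, e1.2, e2.1, e2.2]
  refine (measure_mono hsub).trans ?_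
  rw [Measure.volume_eq_prod, Measure.prod_prod, Real.volume_Icc, Real.volume_Icc,
    ← ENNReal.ofReal_mul (by ring_nf; positivity)]
  apply ENNReal.ofReal_le_ofReal
  apply le_of_eq
  field_simp
  ring

end Pool.Agent.MP_c7fc41_gt
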