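import Mathlib
import Pool.Agent.MP_c7fc41_gt.Basic

set_option autoImplicit false

open MeasureTheory Set Filter
open scoped Pointwise Topology

namespace Pool.Agent.MP_c7fc41_gt

variable {ι : Type} [Fintype ι]

/-- polygon given by linear inequalities -/
def poly (v : ι → ℝ × ℝ) (b : ι → ℝ) : Set (ℝ × ℝ) := {p | ∀ i, lf (v i) p ≤ b i}

omit [Fintype ι] in
lemma isClosed_poly (v : ι → ℝ × ℝ) (b : ι → ℝ) : IsClosed (poly v b) := by
  have : poly v b = ⋂ i, {p | lf (v i) p ≤ b i} := by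
    ext p; simp [poly]
  rw [this]
  exact isClosed_iInter fun i => isClosed_le (continuous_lf _) continuous_const

omit [Fintype ι] in
lemma exists_pair_bound (v : ι → ℝ × ℝ) (c : ι → ℝ) (i j : ι) :
    ∃ M : ℝ, 0 ≤ M ∧ ∀ δ : ℝ, 0 ≤ δ →
      volume {p : ℝ × ℝ | (v i).1 * (v j).2 - (v i).2 * (v j).1 ≠ 0 ∧
        |lf (v i) p - c i| ≤ δ ∧ |lf (v j) p - c j| ≤ δ} ≤ ENNReal.ofReal (M * δ ^ 2) := by
  by_cases hD : (v i).1 * (v j).2 - (v i).2 * (v j).1 ≠ 0
  · obtain ⟨M, hM, h⟩ := volume_cross (v i) (v j) hD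
    refine ⟨M, hM, fun δ hδ => ?_⟩
    refine (measure_mono ?_).trans (h (c i) (c j) δ hδ)
    rintro p ⟨-, hp⟩
    exact hp
  · refine ⟨0, le_refl _, fun δ _ => ?_⟩
    have : {p : ℝ × ℝ | (v i).1 * (v j).2 - (v i).2 * (v j).1 ≠ 0 ∧
        |lf (v i) p - c i| ≤ δ ∧ |lf (v j) p - c j| ≤ δ} = ∅ := by
      ext p
      simp only [mem_ofPred_eq, mem_empty_iff_false, iff_false, not_and]
      intro h
      exact absurd h hD
    rw [this, measure_empty]
    exact bot_le

/-- First-order expansion of the volume of `P + ε L` for `P` a product of two polygons. -/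
lemma expansion [DecidableEq ι] [Nonempty ι] (v : ι → ℝ × ℝ) (c : ι → ℝ) (R : ℝ) (hR : 0 ≤ R)
    (hbox : ∀ b : ι → ℝ, (∀ i, b i ≤ c i + 1) → poly v b ⊆ box R)
    (hv : ∀ i, v i ≠ 0)
    (hpair : ∀ i j, i ≠ j →
      (v i).1 * (v j).2 - (v i).2 * (v j).1 ≠ 0 ∨ (v j = - v i ∧ 0 < c i + c j))
    (L : Set ((ℝ × ℝ) × (ℝ × ℝ))) (hL : IsCompact L) (hne : L.Nonempty)
    (h₁ h₂ : ι → ℝ)
    (hh₁ : ∀ i, IsGreatest ((fun y : (ℝ × ℝ) × (ℝ × ℝ) => lf (v i) y.1) '' L) (h₁ i))
    (hh₂ : ∀ i, IsGreatest ((fun y : (ℝ × ℝ) × (ℝ × ℝ) => lf (v i) y.2) '' L) (h₂ i)) :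
    ∃ M : ℝ, ∀ᶠ ε in 𝓝[≥] (0 : ℝ),
      volume (poly v c ×ˢ poly v c + ε • L) ≤
        volume (poly v (c + ε • h₁)) * volume (poly v (c + ε • h₂)) ∧
      volume (poly v (c + ε • h₁)) * volume (poly v (c + ε • h₂)) ≤
        volume (poly v c ×ˢ poly v c + ε • L) + ENNReal.ofReal (M * ε ^ 2) ∧
      volume (poly v (c + ε • h₁)) * volume (poly v (c + ε • h₂)) < ⊤ := by
  -- a bound for the functionals on `L`
  obtain ⟨C, hC⟩ := hL.exists_bound_of_continuousOn
    (f := fun y : (ℝ × ℝ) × (ℝ × ℝ) => ∑ i, (|lf (v i) y.1| + |lf (v i) y.2|))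
    (by fun_prop)
  have hC1 : ∀ i, ∀ y ∈ L, |lf (v i) y.1| ≤ C ∧ |lf (v i) y.2| ≤ C := by
    intro i y hy
    have h := hC y hy
    rw [Real.norm_eq_abs] at h
    have h' := (le_abs_self _).trans h
    have h3 : |lf (v i) y.1| + |lf (v i) y.2| ≤ ∑ i, (|lf (v i) y.1| + |lf (v i) y.2|) :=
      Finset.single_le_sum (f := fun i => |lf (v i) y.1| + |lf (v i) y.2|)
        (fun i _ => by positivity) (Finset.mem_univ i)
    constructor
    · linarith [abs_nonneg (lf (v i) y.2)]
    · linarith [abs_nonneg (lf (v i) y.1)]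
  have hC0 : 0 ≤ C := by
    obtain ⟨y, hy⟩ := hne
    exact (abs_nonneg _).trans (hC1 (Classical.arbitrary ι) y hy).1
  have hh₁C : ∀ i, h₁ i ≤ C := by
    intro i
    obtain ⟨y, hy, hy'⟩ := (hh₁ i).1
    rw [← hy']
    exact (le_abs_self _).trans (hC1 i y hy).1
  have hh₂C : ∀ i, h₂ i ≤ C := by
    intro i
    obtain ⟨y, hy, hy'⟩ := (hh₂ i).1
    rw [← hy']
    exact (le_abs_self _).trans (hC1 i y hy).2
  choose Mp hMp0 hMp using exists_pair_bound v c
  choose Ms hMs0 hMs using fun i => volume_strip (v i) (hv i) R hR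
  set MZ : ℝ := ∑ i, ∑ j, Mp i j with hMZ
  set MW : ℝ := ∑ i, Ms i with hMW
  have hMZ0 : 0 ≤ MZ := Finset.sum_nonneg fun i _ => Finset.sum_nonneg fun j _ => hMp0 i j
  have hMW0 : 0 ≤ MW := Finset.sum_nonneg fun i _ => hMs0 i
  refine ⟨2 * (MZ * C ^ 2 * (2 * R) ^ 2) + (MW * C) ^ 2, ?_⟩
  have ev1 : ∀ᶠ ε in 𝓝[≥] (0 : ℝ), ε * C ≤ 1 := by
    have : Tendsto (fun ε : ℝ => ε * C) (𝓝[≥] 0) (𝓝 (0 * C)) :=
      (tendsto_id.mul_const C).mono_left nhdsWithin_le_nhds
    rw [zero_mul] at this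
    exact this.eventually_le_const one_pos
  have ev2 : ∀ᶠ ε in 𝓝[≥] (0 : ℝ), ∀ i j, 0 < c i + c j → 2 * (C * ε) < c i + c j := by
    rw [eventually_all]; intro i
    rw [eventually_all]; intro j
    by_cases hij : 0 < c i + c j
    · have : Tendsto (fun ε : ℝ => 2 * (C * ε)) (𝓝[≥] 0) (𝓝 (2 * (C * 0))) :=
        ((tendsto_id.const_mul C).const_mul 2).mono_left nhdsWithin_le_nhds
      rw [mul_zero, mul_zero] at this
      filter_upwards [this.eventually_lt_const hij] with ε hε _ using hε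
    · exact Eventually.of_forall fun ε h => absurd h hij
  filter_upwards [ev1, ev2, self_mem_nhdsWithin] with ε he1 he2 he0
  have he0' : (0 : ℝ) ≤ ε := he0
  set A := poly v (c + ε • h₁) with hA
  set B := poly v (c + ε • h₂) with hB
  have hAbox : A ⊆ box R := hbox _ fun i => by
    simp only [Pi.add_apply, Pi.smul_apply, smul_eq_mul]
    nlinarith [hh₁C i]
  have hBbox : B ⊆ box R := hbox _ fun i => by
    simp only [Pi.add_apply, Pi.smul_apply, smul_eq_mul]
    nlinarith [hh₂C i]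
  have hprod : volume (A ×ˢ B) = volume A * volume B := by
    rw [Measure.volume_eq_prod, Measure.prod_prod]
  refine ⟨?_, ?_, ?_⟩
  · -- upper bound
    rw [← hprod]
    apply measure_mono
    rintro x ⟨p, hp, y', ⟨y, hy, rfl⟩, rfl⟩
    obtain ⟨hp1, hp2⟩ := hp
    refine ⟨fun i => ?_, fun i => ?_⟩
    · have e := (hh₁ i).2 ⟨y, hy, rfl⟩
      simp only [Pi.add_apply, Pi.smul_apply, smul_eq_mul, Prod.fst_add, Prod.smul_fst, lf_add,
        lf_smul] at e ⊢
      have := hp1 i
      nlinarith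
    · have e := (hh₂ i).2 ⟨y, hy, rfl⟩
      simp only [Pi.add_apply, Pi.smul_apply, smul_eq_mul, Prod.snd_add, Prod.smul_snd, lf_add,
        lf_smul] at e ⊢
      have := hp2 i
      nlinarith
  · -- lower bound
    set δ := C * ε with hδ
    have hδ0 : 0 ≤ δ := by positivity
    set Z : Set (ℝ × ℝ) := ⋃ i, ⋃ j, {p : ℝ × ℝ | (v i).1 * (v j).2 - (v i).2 * (v j).1 ≠ 0 ∧
        |lf (v i) p - c i| ≤ δ ∧ |lf (v j) p - c j| ≤ δ} with hZ
    set W : Set (ℝ × ℝ) := ⋃ i, (box R ∩ {p | |lf (v i) p - c i| ≤ δ}) with hW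
    have hZv : volume Z ≤ ENNReal.ofReal (MZ * δ ^ 2) := by
      rw [hMZ, Finset.sum_mul, ENNReal.ofReal_sum_of_nonneg
        (fun i _ => mul_nonneg (Finset.sum_nonneg fun j _ => hMp0 i j) (sq_nonneg _))]
      refine (measure_iUnion_fintype_le _ _).trans (Finset.sum_le_sum fun i _ => ?_)
      rw [Finset.sum_mul, ENNReal.ofReal_sum_of_nonneg
        (fun j _ => mul_nonneg (hMp0 i j) (sq_nonneg _))]
      exact (measure_iUnion_fintype_le _ _).trans (Finset.sum_le_sum fun j _ => hMp i j δ hδ0)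
    have hWv : volume W ≤ ENNReal.ofReal (MW * δ) := by
      rw [hMW, Finset.sum_mul, ENNReal.ofReal_sum_of_nonneg
        (fun i _ => mul_nonneg (hMs0 i) hδ0)]
      exact (measure_iUnion_fintype_le _ _).trans (Finset.sum_le_sum fun i _ => hMs i (c i) δ hδ0)
    -- violations near the boundary
    have viol : ∀ (h : ι → ℝ), (∀ i, h i ≤ C) → ∀ p ∈ poly v (c + ε • h), ∀ i,
        c i - δ < lf (v i) p → |lf (v i) p - c i| ≤ δ := by
      intro h hh p hp i hi
      have := hp i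
      simp only [Pi.add_apply, Pi.smul_apply, smul_eq_mul] at this
      rw [abs_le]
      constructor
      · linarith
      · have : ε * h i ≤ δ := by rw [hδ, mul_comm C]; exact mul_le_mul_of_nonneg_left (hh i) he0'
        linarith
    have two : ∀ (h : ι → ℝ), (∀ i, h i ≤ C) → ∀ p ∈ poly v (c + ε • h), p ∉ Z →
        ∃ i₀, ∀ j, j ≠ i₀ → lf (v j) p ≤ c j - δ := by
      intro h hh p hp hpZ
      by_contra hcon
      push Not at hcon
      obtain ⟨i, hi, hi'⟩ := hcon (Classical.arbitrary ι)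
      obtain ⟨j, hj, hj'⟩ := hcon i
      apply hpZ
      rcases hpair i j hj.symm with hD | ⟨hvv, hcc⟩
      · rw [hZ]
        simp only [mem_iUnion, mem_ofPred_eq]
        exact ⟨i, j, hD, viol h hh p hp i hi', viol h hh p hp j hj'⟩
      · exfalso
        have e : lf (v j) p = - lf (v i) p := by
          rw [hvv]; simp only [lf, Prod.fst_neg, Prod.snd_neg]; ring
        rw [e] at hj'
        have := he2 i j hcc
        linarith
    have hsub : A ×ˢ B ⊆ (poly v c ×ˢ poly v c + ε • L) ∪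
        ((Z ×ˢ box R) ∪ (box R ×ˢ Z) ∪ (W ×ˢ W)) := by
      rintro ⟨p, q⟩ ⟨hp, hq⟩
      by_contra hcon
      simp only [mem_union, not_or] at hcon
      obtain ⟨hnot, ⟨hZ1, hZ2⟩, hWW⟩ := hcon
      have hpZ : p ∉ Z := fun h => hZ1 ⟨h, hBbox hq⟩
      have hqZ : q ∉ Z := fun h => hZ2 ⟨hAbox hp, h⟩
      obtain ⟨i₀, hi₀⟩ := two h₁ hh₁C p hp hpZ
      obtain ⟨j₀, hj₀⟩ := two h₂ hh₂C q hq hqZ
      have key : ∀ y ∈ L, (∀ i, lf (v i) (p - ε • y.1) ≤ c i) →
          (∀ i, lf (v i) (q - ε • y.2) ≤ c i) → False := by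
        intro y hy ha hb
        apply hnot
        refine ⟨(p - ε • y.1, q - ε • y.2), ⟨ha, hb⟩, ε • y, ⟨y, hy, rfl⟩, ?_⟩
        ext <;> simp
      have shift : ∀ i, ∀ y ∈ L, -δ ≤ ε * lf (v i) y.1 ∧ -δ ≤ ε * lf (v i) y.2 := by
        intro i y hy
        have e := hC1 i y hy
        have e1 := (abs_le.mp e.1).1
        have e2 := (abs_le.mp e.2).1
        rw [hδ]
        constructor <;> nlinarith
      by_cases hpv : ∃ i, c i - δ < lf (v i) p
      · by_cases hqv : ∃ j, c j - δ < lf (v j) q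
        · obtain ⟨i, hi⟩ := hpv
          obtain ⟨j, hj⟩ := hqv
          apply hWW
          refine ⟨?_, ?_⟩
          · rw [hW]; simp only [mem_iUnion]
            exact ⟨i, hAbox hp, viol h₁ hh₁C p hp i hi⟩
          · rw [hW]; simp only [mem_iUnion]
            exact ⟨j, hBbox hq, viol h₂ hh₂C q hq j hj⟩
        · push Not at hqv
          obtain ⟨y, hy, hy'⟩ := (hh₁ i₀).1
          refine key y hy (fun i => ?_) (fun i => ?_)
          · rw [lf_sub, lf_smul]
            by_cases hii : i = i₀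
            · subst hii
              have e := hp i
              simp only [Pi.add_apply, Pi.smul_apply, smul_eq_mul] at e hy'
              rw [hy']; linarith
            · linarith [hi₀ i hii, (shift i y hy).1]
          · rw [lf_sub, lf_smul]
            linarith [hqv i, (shift i y hy).2]
      · push Not at hpv
        obtain ⟨y, hy, hy'⟩ := (hh₂ j₀).1
        refine key y hy (fun i => ?_) (fun i => ?_)
        · rw [lf_sub, lf_smul]
          linarith [hpv i, (shift i y hy).1]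
        · rw [lf_sub, lf_smul]
          by_cases hii : i = j₀
          · subst hii
            have e := hq i
            simp only [Pi.add_apply, Pi.smul_apply, smul_eq_mul] at e hy'
            rw [hy']; linarith
          · linarith [hj₀ i hii, (shift i y hy).2]
    rw [← hprod]
    refine (measure_mono hsub).trans ((measure_union_le _ _).trans ?_)
    gcongr
    refine (measure_union_le _ _).trans ((add_le_add_left (measure_union_le _ _) _).trans ?_)
    have hbv : volume (box R) = ENNReal.ofReal ((2 * R) ^ 2) := by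
      rw [volume_box, ← ENNReal.ofReal_mul (by positivity), pow_two]
    have v1 : volume (Z ×ˢ box R) ≤ ENNReal.ofReal (MZ * δ ^ 2 * (2 * R) ^ 2) := by
      rw [Measure.volume_eq_prod, Measure.prod_prod, hbv,
        ENNReal.ofReal_mul (by positivity)]
      gcongr
    have v2 : volume (box R ×ˢ Z) ≤ ENNReal.ofReal (MZ * δ ^ 2 * (2 * R) ^ 2) := by
      rw [Measure.volume_eq_prod, Measure.prod_prod, hbv, mul_comm,
        ENNReal.ofReal_mul (by positivity)]
      gcongr
    have v3 : volume (W ×ˢ W) ≤ ENNReal.ofReal ((MW * δ) ^ 2) := by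
      rw [Measure.volume_eq_prod, Measure.prod_prod, pow_two, ENNReal.ofReal_mul (by positivity)]
      gcongr
    refine (add_le_add (add_le_add v1 v2) v3).trans ?_
    rw [← ENNReal.ofReal_add (by positivity) (by positivity),
      ← ENNReal.ofReal_add (by positivity) (by positivity)]
    apply ENNReal.ofReal_le_ofReal
    apply le_of_eq
    rw [hδ]
    ring
  · rw [← hprod]
    refine (measure_mono (prod_mono hAbox hBbox)).trans_lt ?_
    rw [Measure.volume_eq_prod, Measure.prod_prod, volume_box]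
    exact ENNReal.mul_lt_top (ENNReal.mul_lt_top ENNReal.ofReal_lt_top ENNReal.ofReal_lt_top)
      (ENNReal.mul_lt_top ENNReal.ofReal_lt_top ENNReal.ofReal_lt_top)

end Pool.Agent.MP_c7fc41_gt
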