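import Mathlib
import Pool.Agent.MP_c7fc41_gt.Expansion

set_option autoImplicit false

open MeasureTheory Set Filter
open scoped Pointwise Topology

namespace Pool.Agent.MP_c7fc41_gt

lemma lint_aux (u a : ℝ) (h : u ≤ a) :
    ∫⁻ x, (Icc u a).indicator (fun x => ENNReal.ofReal (x - u)) x = ENNReal.ofReal ((a - u) ^ 2 / 2) := by
  rw [lintegral_indicator measurableSet_Icc]
  rw [← ofReal_integral_eq_lintegral_ofReal]
  · congr 1
    rw [integral_Icc_eq_integral_Ioc, ← intervalIntegral.integral_of_le h]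
    rw [intervalIntegral.integral_sub (by simp) (by simp)]
    simp only [integral_id, intervalIntegral.integral_const, smul_eq_mul]
    ring
  · exact (by fun_prop : Continuous fun x : ℝ => x - u).integrableOn_Icc
  · rw [EventuallyLE, ae_restrict_iff' measurableSet_Icc]
    exact Eventually.of_forall fun x hx => sub_nonneg.mpr hx.1

lemma volume_tri (a b c : ℝ) (h : c ≤ a + b) :
    volume {p : ℝ × ℝ | p.1 ≤ a ∧ p.2 ≤ b ∧ c ≤ p.1 + p.2}
      = ENNReal.ofReal ((a + b - c) ^ 2 / 2) := by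
  have hm : MeasurableSet {p : ℝ × ℝ | p.1 ≤ a ∧ p.2 ≤ b ∧ c ≤ p.1 + p.2} := by
    measurability
  rw [Measure.volume_eq_prod, Measure.prod_apply hm]
  have : (fun x => volume (Prod.mk x ⁻¹' {p : ℝ × ℝ | p.1 ≤ a ∧ p.2 ≤ b ∧ c ≤ p.1 + p.2})) =
      (Icc (c - b) a).indicator (fun x => ENNReal.ofReal (x - (c - b))) := by
    funext x
    have hpre : Prod.mk x ⁻¹' {p : ℝ × ℝ | p.1 ≤ a ∧ p.2 ≤ b ∧ c ≤ p.1 + p.2} =
        if x ≤ a then Icc (c - x) b else ∅ := by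
      ext y
      by_cases hx : x ≤ a
      · simp only [mem_preimage, mem_ofPred_eq, hx, true_and, if_true, mem_Icc]
        constructor
        · rintro ⟨h1, h2⟩; constructor <;> linarith
        · rintro ⟨h1, h2⟩; constructor <;> linarith
      · simp [hx]
    rw [hpre]
    by_cases hx : x ≤ a
    · rw [if_pos hx, Real.volume_Icc]
      by_cases hx2 : c - b ≤ x
      · rw [indicator_of_mem (show x ∈ Icc (c - b) a from ⟨hx2, hx⟩)]; congr 1; ring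
      · rw [indicator_of_notMem (fun h => hx2 h.1)]
        rw [ENNReal.ofReal_eq_zero]; linarith
    · rw [if_neg hx, measure_empty, indicator_of_notMem (fun h => hx h.2)]
  rw [this, lint_aux _ _ (by linarith)]
  congr 2
  ring

lemma volume_tri' (a b c : ℝ) (h : c ≤ a + b) :
    volume {p : ℝ × ℝ | p.1 ≤ a ∧ p.2 ≤ b ∧ c < p.1 + p.2}
      = ENNReal.ofReal ((a + b - c) ^ 2 / 2) := by
  have hm : MeasurableSet {p : ℝ × ℝ | p.1 ≤ a ∧ p.2 ≤ b ∧ c < p.1 + p.2} := by measurability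
  rw [Measure.volume_eq_prod, Measure.prod_apply hm]
  have : (fun x => volume (Prod.mk x ⁻¹' {p : ℝ × ℝ | p.1 ≤ a ∧ p.2 ≤ b ∧ c < p.1 + p.2})) =
      (Icc (c - b) a).indicator (fun x => ENNReal.ofReal (x - (c - b))) := by
    funext x
    have hpre : Prod.mk x ⁻¹' {p : ℝ × ℝ | p.1 ≤ a ∧ p.2 ≤ b ∧ c < p.1 + p.2} =
        if x ≤ a then Ioc (c - x) b else ∅ := by
      ext y
      by_cases hx : x ≤ a
      · simp only [mem_preimage, mem_ofPred_eq, hx, true_and, if_true, mem_Ioc]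
        constructor
        · rintro ⟨h1, h2⟩; constructor <;> linarith
        · rintro ⟨h1, h2⟩; constructor <;> linarith
      · simp [hx]
    rw [hpre]
    by_cases hx : x ≤ a
    · rw [if_pos hx, Real.volume_Ioc]
      by_cases hx2 : c - b ≤ x
      · rw [indicator_of_mem (show x ∈ Icc (c - b) a from ⟨hx2, hx⟩)]; congr 1; ring
      · rw [indicator_of_notMem (fun h => hx2 h.1)]
        rw [ENNReal.ofReal_eq_zero]; linarith
    · rw [if_neg hx, measure_empty, indicator_of_notMem (fun h => hx h.2)]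
  rw [this, lint_aux _ _ (by linarith)]
  congr 2
  ring

/-- outer normals of the standard triangle -/
def vT : Fin 3 → ℝ × ℝ := ![(-1, 0), (0, -1), (1, 1)]

/-- outer normals of the hexagon -/
def vH : Fin 6 → ℝ × ℝ := ![(1, 0), (-1, 0), (0, 1), (0, -1), (1, 1), (-1, -1)]

lemma mem_poly_vT (b : Fin 3 → ℝ) (p : ℝ × ℝ) :
    p ∈ poly vT b ↔ -p.1 ≤ b 0 ∧ -p.2 ≤ b 1 ∧ p.1 + p.2 ≤ b 2 := by
  simp [poly, vT, lf, Fin.forall_fin_succ]

lemma mem_poly_vH (b : Fin 6 → ℝ) (p : ℝ × ℝ) :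
    p ∈ poly vH b ↔ p.1 ≤ b 0 ∧ -p.1 ≤ b 1 ∧ p.2 ≤ b 2 ∧ -p.2 ≤ b 3 ∧ p.1 + p.2 ≤ b 4 ∧
      -p.1 + -p.2 ≤ b 5 := by
  simp [poly, vH, lf, Fin.forall_fin_succ]

lemma volume_poly_vT (b : Fin 3 → ℝ) (h : 0 ≤ b 0 + b 1 + b 2) :
    volume (poly vT b) = ENNReal.ofReal ((b 0 + b 1 + b 2) ^ 2 / 2) := by
  have : poly vT b = -{p : ℝ × ℝ | p.1 ≤ b 0 ∧ p.2 ≤ b 1 ∧ - b 2 ≤ p.1 + p.2} := by
    ext p
    rw [mem_poly_vT, Set.mem_neg]
    simp only [mem_ofPred_eq, Prod.fst_neg, Prod.snd_neg]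
    constructor
    · rintro ⟨h1, h2, h3⟩; refine ⟨h1, h2, by linarith⟩
    · rintro ⟨h1, h2, h3⟩; refine ⟨h1, h2, by linarith⟩
  rw [this, Measure.measure_neg, volume_tri _ _ _ (by linarith)]
  congr 2
  ring

lemma volume_poly_vH (b : Fin 6 → ℝ) (h02 : b 4 ≤ b 0 + b 2) (h13 : b 5 ≤ b 1 + b 3)
    (h1 : b 2 ≤ b 1 + b 4) (h2 : b 0 ≤ b 3 + b 4) (h3 : b 3 ≤ b 0 + b 5) (h4 : b 1 ≤ b 2 + b 5)
    (h45 : 0 ≤ b 4 + b 5) :
    volume (poly vH b) = ENNReal.ofReal ((b 0 + b 1) * (b 2 + b 3) - (b 0 + b 2 - b 4) ^ 2 / 2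
      - (b 1 + b 3 - b 5) ^ 2 / 2) := by
  set T1 : Set (ℝ × ℝ) := {p : ℝ × ℝ | p.1 ≤ b 0 ∧ p.2 ≤ b 2 ∧ b 4 < p.1 + p.2} with hT1
  set T2' : Set (ℝ × ℝ) := {p : ℝ × ℝ | p.1 ≤ b 1 ∧ p.2 ≤ b 3 ∧ b 5 < p.1 + p.2} with hT2'
  set T2 : Set (ℝ × ℝ) := -T2' with hT2
  set Q : Set (ℝ × ℝ) := Icc (-b 1) (b 0) ×ˢ Icc (-b 3) (b 2) with hQ
  have mT1 : MeasurableSet T1 := by rw [hT1]; measurability
  have mT2' : MeasurableSet T2' := by rw [hT2']; measurability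
  have mT2 : MeasurableSet T2 := mT2'.neg
  have vT1 : volume T1 = ENNReal.ofReal ((b 0 + b 2 - b 4) ^ 2 / 2) := volume_tri' _ _ _ h02
  have vT2 : volume T2 = ENNReal.ofReal ((b 1 + b 3 - b 5) ^ 2 / 2) := by
    rw [hT2, Measure.measure_neg]; exact volume_tri' _ _ _ h13
  have hdisj : Disjoint T1 T2 := by
    rw [Set.disjoint_left]
    rintro p ⟨-, -, hp⟩ hp2
    rw [hT2, Set.mem_neg] at hp2
    obtain ⟨-, -, hp2⟩ := hp2
    simp only [Prod.fst_neg, Prod.snd_neg] at hp2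
    linarith
  have hsub : T1 ∪ T2 ⊆ Q := by
    rintro p (⟨hp1, hp2, hp3⟩ | hp)
    · refine ⟨⟨?_, ?_⟩, ⟨?_, ?_⟩⟩ <;> linarith
    · rw [hT2, Set.mem_neg] at hp
      obtain ⟨hp1, hp2, hp3⟩ := hp
      simp only [Prod.fst_neg, Prod.snd_neg] at hp1 hp2 hp3
      refine ⟨⟨?_, ?_⟩, ⟨?_, ?_⟩⟩ <;> linarith
  have heq : poly vH b = Q \ (T1 ∪ T2) := by
    ext p
    rw [mem_poly_vH, Set.mem_sdiff, mem_union, hT2, Set.mem_neg, hT1, hT2', hQ, mem_prod, mem_Icc,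
      mem_Icc]
    simp only [mem_ofPred_eq, Prod.fst_neg, Prod.snd_neg, not_or, not_and, not_lt]
    constructor
    · rintro ⟨a1, a2, a3, a4, a5, a6⟩
      refine ⟨⟨⟨by linarith, a1⟩, ⟨by linarith, a3⟩⟩, fun _ _ => a5, fun _ _ => by linarith⟩
    · rintro ⟨⟨⟨a1, a2⟩, ⟨a3, a4⟩⟩, a5, a6⟩
      exact ⟨a2, by linarith, a4, by linarith, a5 a2 a4, a6 (by linarith) (by linarith)⟩
  have vQ : volume Q = ENNReal.ofReal ((b 0 + b 1) * (b 2 + b 3)) := by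
    rw [hQ, Measure.volume_eq_prod, Measure.prod_prod, Real.volume_Icc, Real.volume_Icc,
      ← ENNReal.ofReal_mul (by linarith)]
    congr 1; ring
  rw [heq, measure_sdiff hsub (mT1.union mT2).nullMeasurableSet ?_, measure_union hdisj mT2, vQ,
    vT1, vT2, ← ENNReal.ofReal_add (by positivity) (by positivity),
    ← ENNReal.ofReal_sub _ (by positivity)]
  · congr 1; ring
  · rw [measure_union hdisj mT2, vT1, vT2]
    exact ENNReal.add_ne_top.mpr ⟨ENNReal.ofReal_ne_top, ENNReal.ofReal_ne_top⟩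

end Pool.Agent.MP_c7fc41_gt
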