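import Mathlib
import Pool.Agent.MP_c7fc41_gt.Areas

set_option autoImplicit false

open MeasureTheory Set Filter Asymptotics
open scoped Pointwise Topology

namespace Pool.Agent.MP_c7fc41_gt

lemma deriv_of_sandwich (g u : ℝ → ℝ) (a M : ℝ) (hu : HasDerivWithinAt u a (Ici 0) 0)
    (h : ∀ᶠ ε in 𝓝[≥] (0 : ℝ), |g ε - u ε| ≤ M * ε ^ 2) :
    HasDerivWithinAt g a (Ici 0) 0 := by
  have h0 : g 0 - u 0 = 0 := by
    have := h.self_of_nhdsWithin (mem_Ici.mpr le_rfl)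
    simpa using this
  have hw : HasDerivWithinAt (fun ε => g ε - u ε) 0 (Ici 0) 0 := by
    rw [hasDerivWithinAt_iff_isLittleO]
    simp only [h0, sub_zero, smul_zero]
    have h1 : (fun ε => g ε - u ε) =O[𝓝[≥] 0] (fun ε : ℝ => ε ^ 2) := by
      refine IsBigO.of_bound M ?_
      filter_upwards [h] with ε hε
      rw [Real.norm_eq_abs, Real.norm_eq_abs, abs_of_nonneg (sq_nonneg ε)]
      exact hε
    have h2 : (fun ε : ℝ => ε ^ 2) =o[𝓝[≥] 0] (fun ε : ℝ => ε) := by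
      have : (fun ε : ℝ => ε ^ 2) =o[𝓝 0] (fun ε : ℝ => ε ^ 1) :=
        isLittleO_pow_pow (by norm_num)
      simp only [pow_one] at this
      exact this.mono nhdsWithin_le_nhds
    exact h1.trans_isLittleO h2
  have := hw.add hu
  have e : (fun ε => g ε - u ε) + u = g := by funext ε; simp
  rw [e, zero_add] at this
  exact this

lemma key_deriv {ι : Type} [Fintype ι] [DecidableEq ι] [Nonempty ι]
    (v : ι → ℝ × ℝ) (c : ι → ℝ) (R : ℝ) (hR : 0 ≤ R)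
    (hbox : ∀ b : ι → ℝ, (∀ i, b i ≤ c i + 1) → poly v b ⊆ box R)
    (hv : ∀ i, v i ≠ 0)
    (hpair : ∀ i j, i ≠ j →
      (v i).1 * (v j).2 - (v i).2 * (v j).1 ≠ 0 ∨ (v j = - v i ∧ 0 < c i + c j))
    (L : Set ((ℝ × ℝ) × (ℝ × ℝ))) (hL : IsCompact L) (hne : L.Nonempty)
    (h₁ h₂ : ι → ℝ)
    (hh₁ : ∀ i, IsGreatest ((fun y : (ℝ × ℝ) × (ℝ × ℝ) => lf (v i) y.1) '' L) (h₁ i))
    (hh₂ : ∀ i, IsGreatest ((fun y : (ℝ × ℝ) × (ℝ × ℝ) => lf (v i) y.2) '' L) (h₂ i))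
    (q : (ι → ℝ) → ℝ)
    (hq : ∀ h : ι → ℝ, ∀ᶠ ε in 𝓝[≥] (0 : ℝ),
      0 ≤ q (c + ε • h) ∧ volume (poly v (c + ε • h)) = ENNReal.ofReal (q (c + ε • h)))
    (a₁ a₂ : ℝ)
    (hd₁ : HasDerivWithinAt (fun ε : ℝ => q (c + ε • h₁)) a₁ (Ici 0) 0)
    (hd₂ : HasDerivWithinAt (fun ε : ℝ => q (c + ε • h₂)) a₂ (Ici 0) 0) :
    HasDerivWithinAt (fun ε : ℝ => (volume (poly v c ×ˢ poly v c + ε • L)).toReal)
      (a₁ * q c + q c * a₂) (Ici 0) 0 := by
  obtain ⟨M, hM⟩ := expansion v c R hR hbox hv hpair L hL hne h₁ h₂ hh₁ hh₂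
  have hu := hd₁.mul hd₂
  have e : a₁ * q c + q c * a₂ =
      a₁ * q (c + (0 : ℝ) • h₂) + q (c + (0 : ℝ) • h₁) * a₂ := by
    simp
  rw [e]
  refine deriv_of_sandwich _ _ _ (|M|) hu ?_
  filter_upwards [hM, hq h₁, hq h₂] with ε hε h1 h2
  obtain ⟨u1, u2, u3⟩ := hε
  rw [h1.2, h2.2, ← ENNReal.ofReal_mul h1.1] at u1 u2
  set w := q (c + ε • h₁) * q (c + ε • h₂) with hw
  have hw0 : 0 ≤ w := mul_nonneg h1.1 h2.1
  set V := volume (poly v c ×ˢ poly v c + ε • L) with hV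
  have hVtop : V ≠ ⊤ := ne_top_of_le_ne_top ENNReal.ofReal_ne_top u1
  have r1 : V.toReal ≤ w := by
    have := ENNReal.toReal_mono ENNReal.ofReal_ne_top u1
    rwa [ENNReal.toReal_ofReal hw0] at this
  have r2 : w ≤ V.toReal + |M| * ε ^ 2 := by
    have u2' : ENNReal.ofReal w ≤ V + ENNReal.ofReal (|M| * ε ^ 2) := by
      refine u2.trans ?_
      gcongr
      exact le_abs_self M
    have := ENNReal.toReal_mono (ENNReal.add_ne_top.mpr ⟨hVtop, ENNReal.ofReal_ne_top⟩) u2'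
    rwa [ENNReal.toReal_ofReal hw0, ENNReal.toReal_add hVtop ENNReal.ofReal_ne_top,
      ENNReal.toReal_ofReal (by positivity)] at this
  show |V.toReal - w| ≤ |M| * ε ^ 2
  rw [abs_le]
  constructor <;> linarith [mul_nonneg (abs_nonneg M) (sq_nonneg ε)]

/-- support number of the first component -/
noncomputable def H1 (L : Set ((ℝ × ℝ) × (ℝ × ℝ))) (v : ℝ × ℝ) : ℝ :=
  sSup ((fun y : (ℝ × ℝ) × (ℝ × ℝ) => lf v y.1) '' L)

/-- support number of the second component -/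
noncomputable def H2 (L : Set ((ℝ × ℝ) × (ℝ × ℝ))) (v : ℝ × ℝ) : ℝ :=
  sSup ((fun y : (ℝ × ℝ) × (ℝ × ℝ) => lf v y.2) '' L)

lemma isGreatest_H1 {L : Set ((ℝ × ℝ) × (ℝ × ℝ))} (hL : IsCompact L) (hne : L.Nonempty)
    (v : ℝ × ℝ) : IsGreatest ((fun y : (ℝ × ℝ) × (ℝ × ℝ) => lf v y.1) '' L) (H1 L v) :=
  (hL.image (by fun_prop)).isGreatest_sSup (hne.image _)

lemma isGreatest_H2 {L : Set ((ℝ × ℝ) × (ℝ × ℝ))} (hL : IsCompact L) (hne : L.Nonempty)
    (v : ℝ × ℝ) : IsGreatest ((fun y : (ℝ × ℝ) × (ℝ × ℝ) => lf v y.2) '' L) (H2 L v) :=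
  (hL.image (by fun_prop)).isGreatest_sSup (hne.image _)

lemma H1_neg (L : Set ((ℝ × ℝ) × (ℝ × ℝ))) (v : ℝ × ℝ) : H1 (-L) v = H1 L (-v) := by
  unfold H1
  congr 1
  ext t
  constructor
  · rintro ⟨y, hy, rfl⟩
    exact ⟨-y, hy, by simp [lf]⟩
  · rintro ⟨y, hy, rfl⟩
    exact ⟨-y, by simpa using hy, by simp [lf]⟩

lemma H2_neg (L : Set ((ℝ × ℝ) × (ℝ × ℝ))) (v : ℝ × ℝ) : H2 (-L) v = H2 L (-v) := by
  unfold H2
  congr 1
  ext t
  constructor
  · rintro ⟨y, hy, rfl⟩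
    exact ⟨-y, hy, by simp [lf]⟩
  · rintro ⟨y, hy, rfl⟩
    exact ⟨-y, by simpa using hy, by simp [lf]⟩

/-- right-hand sides for the standard triangle -/
def cT : Fin 3 → ℝ := ![0, 0, 1]

/-- right-hand sides for the hexagon of size `s` -/
def cH (s : ℝ) : Fin 6 → ℝ := fun _ => s

lemma deriv_T (L : Set ((ℝ × ℝ) × (ℝ × ℝ))) (hL : IsCompact L) (hne : L.Nonempty) :
    HasDerivWithinAt (fun ε : ℝ => (volume (poly vT cT ×ˢ poly vT cT + ε • L)).toReal)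
      ((H1 L (-1, 0) + H1 L (0, -1) + H1 L (1, 1)) / 2 +
        (H2 L (-1, 0) + H2 L (0, -1) + H2 L (1, 1)) / 2) (Ici 0) 0 := by
  have hd : ∀ h : Fin 3 → ℝ, HasDerivWithinAt (fun ε : ℝ => (((cT + ε • h) 0 + (cT + ε • h) 1 +
      (cT + ε • h) 2) ^ 2 / 2)) (h 0 + h 1 + h 2) (Ici 0) 0 := by
    intro h
    have e : (fun ε : ℝ => (((cT + ε • h) 0 + (cT + ε • h) 1 + (cT + ε • h) 2) ^ 2 / 2)) =
        fun ε : ℝ => ((1 + ε * (h 0 + h 1 + h 2)) ^ 2 / 2) := by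
      funext ε
      simp [cT]
      ring
    rw [e]
    have h1 : HasDerivAt (fun ε : ℝ => 1 + ε * (h 0 + h 1 + h 2)) (h 0 + h 1 + h 2) 0 := by
      simpa using ((hasDerivAt_id (0 : ℝ)).mul_const (h 0 + h 1 + h 2)).const_add 1
    have h2 := (h1.pow 2).div_const 2
    refine HasDerivAt.hasDerivWithinAt (HasDerivAt.congr_deriv h2 ?_)
    simp
  have key := key_deriv vT cT 3 (by norm_num) ?_ ?_ ?_ L hL hne (fun i => H1 L (vT i))
    (fun i => H2 L (vT i)) (fun i => isGreatest_H1 hL hne _) (fun i => isGreatest_H2 hL hne _)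
    (fun b => (b 0 + b 1 + b 2) ^ 2 / 2) ?_ _ _ (hd _) (hd _)
  · convert key using 1
    simp [vT, cT]
    ring
  · intro b hb p hp
    rw [mem_poly_vT] at hp
    have b0 := hb 0
    have b1 := hb 1
    have b2 := hb 2
    simp only [cT, Matrix.cons_val] at b0 b1 b2
    obtain ⟨p1, p2, p3⟩ := hp
    refine ⟨⟨?_, ?_⟩, ⟨?_, ?_⟩⟩ <;> linarith
  · intro i
    fin_cases i <;> simp [vT]
  · intro i j hij
    fin_cases i <;> fin_cases j <;> simp [vT] at hij ⊢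
  · intro h
    have : Tendsto (fun ε : ℝ => (cT + ε • h) 0 + (cT + ε • h) 1 + (cT + ε • h) 2) (𝓝[≥] 0)
        (𝓝 ((cT + (0 : ℝ) • h) 0 + (cT + (0 : ℝ) • h) 1 + (cT + (0 : ℝ) • h) 2)) := by
      refine Tendsto.mono_left ?_ nhdsWithin_le_nhds
      refine Continuous.tendsto ?_ 0
      simp only [Pi.add_apply, Pi.smul_apply, smul_eq_mul]
      fun_prop
    have h1 : (0 : ℝ) < (cT + (0 : ℝ) • h) 0 + (cT + (0 : ℝ) • h) 1 + (cT + (0 : ℝ) • h) 2 := by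
      simp [cT]
    filter_upwards [this.eventually_const_lt h1] with ε hε
    refine ⟨by positivity, ?_⟩
    exact volume_poly_vT _ hε.le

lemma deriv_H (s : ℝ) (hs : 0 < s) (L : Set ((ℝ × ℝ) × (ℝ × ℝ))) (hL : IsCompact L)
    (hne : L.Nonempty) :
    HasDerivWithinAt (fun ε : ℝ => (volume (poly vH (cH s) ×ˢ poly vH (cH s) + ε • L)).toReal)
      (3 * s ^ 3 * (H1 L (1, 0) + H1 L (-1, 0) + H1 L (0, 1) + H1 L (0, -1) + H1 L (1, 1)
        + H1 L (-1, -1)) +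
        3 * s ^ 3 * (H2 L (1, 0) + H2 L (-1, 0) + H2 L (0, 1) + H2 L (0, -1) + H2 L (1, 1)
        + H2 L (-1, -1))) (Ici 0) 0 := by
  set q : (Fin 6 → ℝ) → ℝ := fun b => (b 0 + b 1) * (b 2 + b 3) - (b 0 + b 2 - b 4) ^ 2 / 2
      - (b 1 + b 3 - b 5) ^ 2 / 2 with hq
  have hd : ∀ h : Fin 6 → ℝ, HasDerivWithinAt (fun ε : ℝ => q (cH s + ε • h))
      (s * (h 0 + h 1 + h 2 + h 3 + h 4 + h 5)) (Ici 0) 0 := by
    intro h
    have e : (fun ε : ℝ => q (cH s + ε • h)) =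
        fun ε : ℝ => (2 * s + ε * (h 0 + h 1)) * (2 * s + ε * (h 2 + h 3))
          - (s + ε * (h 0 + h 2 - h 4)) ^ 2 / 2 - (s + ε * (h 1 + h 3 - h 5)) ^ 2 / 2 := by
      funext ε
      simp only [hq, cH, Pi.add_apply, Pi.smul_apply, smul_eq_mul]
      ring
    rw [e]
    have h1 : ∀ a b : ℝ, HasDerivAt (fun ε : ℝ => a + ε * b) b 0 := by
      intro a b
      simpa using ((hasDerivAt_id (0 : ℝ)).mul_const b).const_add a
    have h2 := ((((h1 (2 * s) (h 0 + h 1)).mul (h1 (2 * s) (h 2 + h 3))).sub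
      (((h1 s (h 0 + h 2 - h 4)).pow 2).div_const 2)).sub
      (((h1 s (h 1 + h 3 - h 5)).pow 2).div_const 2))
    refine HasDerivAt.hasDerivWithinAt (HasDerivAt.congr_deriv h2 ?_)
    simp
    ring
  have key := key_deriv vH (cH s) (s + 1) (by positivity) ?_ ?_ ?_ L hL hne
    (fun i => H1 L (vH i))
    (fun i => H2 L (vH i)) (fun i => isGreatest_H1 hL hne _) (fun i => isGreatest_H2 hL hne _)
    q ?_ _ _ (hd _) (hd _)
  · convert key using 1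
    simp only [vH, hq, cH, Matrix.cons_val]
    ring
  · intro b hb p hp
    rw [mem_poly_vH] at hp
    have b0 := hb 0
    have b1 := hb 1
    have b2 := hb 2
    have b3 := hb 3
    simp only [cH] at b0 b1 b2 b3
    obtain ⟨p1, p2, p3, p4, p5, p6⟩ := hp
    refine ⟨⟨?_, ?_⟩, ⟨?_, ?_⟩⟩ <;> linarith
  · intro i
    fin_cases i <;> simp [vH]
  · intro i j hij
    fin_cases i <;> fin_cases j <;> simp [vH, cH] at hij ⊢ <;> linarith
  · intro h
    have tend : ∀ α : Fin 6 → ℝ, Tendsto (fun ε : ℝ => ∑ i, α i * (cH s + ε • h) i) (𝓝[≥] 0)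
        (𝓝 (∑ i, α i * s)) := by
      intro α
      have : Tendsto (fun ε : ℝ => ∑ i, α i * (cH s + ε • h) i) (𝓝[≥] 0)
          (𝓝 (∑ i, α i * (cH s + (0 : ℝ) • h) i)) := by
        refine Tendsto.mono_left ?_ nhdsWithin_le_nhds
        refine Continuous.tendsto ?_ 0
        simp only [Pi.add_apply, Pi.smul_apply, smul_eq_mul]
        fun_prop
      simpa [cH] using this
    have ev : ∀ α : Fin 6 → ℝ, 0 < ∑ i, α i * s →
        ∀ᶠ ε in 𝓝[≥] (0 : ℝ), 0 < ∑ i, α i * (cH s + ε • h) i :=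
      fun α hα => (tend α).eventually_const_lt hα
    filter_upwards [ev ![1, 0, 1, 0, -1, 0] (by simp [Fin.sum_univ_succ]; linarith),
      ev ![0, 1, 0, 1, 0, -1] (by simp [Fin.sum_univ_succ]; linarith),
      ev ![0, 1, -1, 0, 1, 0] (by simp [Fin.sum_univ_succ]; linarith),
      ev ![-1, 0, 0, 1, 1, 0] (by simp [Fin.sum_univ_succ]; linarith),
      ev ![1, 0, 0, -1, 0, 1] (by simp [Fin.sum_univ_succ]; linarith),
      ev ![0, -1, 1, 0, 0, 1] (by simp [Fin.sum_univ_succ]; linarith),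
      ev ![0, 0, 0, 0, 1, 1] (by simp [Fin.sum_univ_succ]; linarith),
      ev ![1, 1, 0, 0, 0, 0] (by simp [Fin.sum_univ_succ]; linarith)] with
      ε e1 e2 e3 e4 e5 e6 e7 e8
    simp only [Fin.sum_univ_six, Matrix.cons_val] at e1 e2 e3 e4 e5 e6 e7 e8
    set b := cH s + ε • h with hb
    have hv := volume_poly_vH b (by linarith) (by linarith) (by linarith) (by linarith)
      (by linarith) (by linarith) (by linarith)
    refine ⟨?_, hv⟩
    simp only [hq]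
    nlinarith [mul_pos (show 0 < b 0 + b 2 - b 4 by linarith) (show 0 < b 1 + b 3 - b 5 by linarith),
      mul_pos (show 0 < b 1 - b 2 + b 4 by linarith) (show 0 < b 3 - b 0 + b 4 by linarith)]

end Pool.Agent.MP_c7fc41_gt
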