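import Mathlib
import Pool.Agent.MP_c7fc41_gt.Deriv

set_option autoImplicit false

open MeasureTheory Set Filter
open scoped Pointwise Topology

namespace Pool.Agent.MP_c7fc41_gt

abbrev E4 := EuclideanSpace ℝ (Fin 4)

/-- inverse of `phi` -/
def psi : (ℝ × ℝ) × (ℝ × ℝ) → E4 := fun p => !₂[p.1.1, p.1.2, p.2.1, p.2.2]

lemma phi_psi (p : (ℝ × ℝ) × (ℝ × ℝ)) : phi (psi p) = p := by
  simp [phi, psi]

lemma psi_phi (x : E4) : psi (phi x) = x := by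
  ext i
  fin_cases i <;> simp [phi, psi]

lemma continuous_phi : Continuous phi := by
  unfold phi; fun_prop

lemma continuous_psi : Continuous psi := by
  unfold psi
  refine (PiLp.continuous_toLp 2 (fun _ : Fin 4 => ℝ)).comp ?_
  refine continuous_pi fun i => ?_
  fin_cases i <;> simp <;> fun_prop

lemma phi_add (x y : E4) : phi (x + y) = phi x + phi y := by
  simp [phi]

lemma phi_smul (t : ℝ) (x : E4) : phi (t • x) = t • phi x := by
  simp [phi]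

lemma phi_neg (x : E4) : phi (-x) = - phi x := by
  simp [phi]

lemma phi_zero : phi 0 = 0 := by
  simp [phi]

lemma preimage_eq_image (S : Set ((ℝ × ℝ) × (ℝ × ℝ))) : phi ⁻¹' S = psi '' S := by
  ext x
  constructor
  · intro hx
    exact ⟨phi x, hx, psi_phi x⟩
  · rintro ⟨p, hp, rfl⟩
    rw [mem_preimage, phi_psi]; exact hp

lemma isCompact_poly {ι : Type} (v : ι → ℝ × ℝ) (b : ι → ℝ) (R : ℝ) (h : poly v b ⊆ box R) :
    IsCompact (poly v b) :=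
  (isCompact_Icc.prod isCompact_Icc).of_isClosed_subset (isClosed_poly v b) h

lemma isCompact_pre (S : Set (ℝ × ℝ)) (hS : IsCompact S) : IsCompact (phi ⁻¹' (S ×ˢ S)) := by
  rw [preimage_eq_image]
  exact (hS.prod hS).image continuous_psi

lemma convex_poly {ι : Type} (v : ι → ℝ × ℝ) (b : ι → ℝ) : Convex ℝ (poly v b) := by
  intro p hp q hq s t hs ht hst i
  rw [lf_add, lf_smul, lf_smul]
  have h1 := mul_le_mul_of_nonneg_left (hp i) hs
  have h2 := mul_le_mul_of_nonneg_left (hq i) ht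
  calc s * lf (v i) p + t * lf (v i) q ≤ s * b i + t * b i := add_le_add h1 h2
    _ = b i := by rw [← add_mul, hst, one_mul]

lemma convex_pre (S : Set (ℝ × ℝ)) (hS : Convex ℝ S) : Convex ℝ (phi ⁻¹' (S ×ˢ S)) := by
  intro x hx y hy s t hs ht hst
  rw [mem_preimage, phi_add, phi_smul, phi_smul]
  exact (hS.prod hS) hx hy hs ht hst

lemma interior_pre {ι : Type} [Finite ι] (v : ι → ℝ × ℝ) (b : ι → ℝ) (p : ℝ × ℝ)
    (hp : ∀ i, lf (v i) p < b i) :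
    (interior (phi ⁻¹' (poly v b ×ˢ poly v b))).Nonempty := by
  set U : Set (ℝ × ℝ) := ⋂ i, {p | lf (v i) p < b i} with hU
  have hUo : IsOpen U := isOpen_iInter_of_finite fun i =>
    isOpen_lt (continuous_lf _) continuous_const
  have hUs : U ⊆ poly v b := by
    intro p hp i
    exact (mem_iInter.mp hp i).le
  have hpU : p ∈ U := mem_iInter.mpr hp
  refine ⟨psi (p, p), ?_⟩
  rw [mem_interior]
  refine ⟨phi ⁻¹' (U ×ˢ U), preimage_mono (prod_mono hUs hUs),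
    (hUo.prod hUo).preimage continuous_phi, ?_⟩
  rw [mem_preimage, phi_psi]
  exact ⟨hpU, hpU⟩

lemma volume_pre_add (S : Set ((ℝ × ℝ) × (ℝ × ℝ))) (hS : IsCompact S) (L : Set E4)
    (hL : IsCompact L) (ε : ℝ) :
    volume (phi ⁻¹' S + ε • L) = volume (S + ε • (phi '' L)) := by
  have hm : MeasurableSet (S + ε • (phi '' L)) :=
    (hS.add ((hL.image continuous_phi).smul ε)).measurableSet
  rw [← phi_mp.measure_preimage hm.nullMeasurableSet]
  congr 1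
  ext x
  constructor
  · rintro ⟨a, ha, b', ⟨b, hb, rfl⟩, rfl⟩
    refine ⟨phi a, ha, ε • phi b, ⟨phi b, ⟨b, hb, rfl⟩, rfl⟩, ?_⟩
    simp only [phi_add, phi_smul]
  · rintro ⟨a, ha, b', ⟨b'', ⟨b, hb, rfl⟩, rfl⟩, hab⟩
    refine ⟨psi a, ?_, ε • b, ⟨b, hb, rfl⟩, ?_⟩
    · rw [mem_preimage, phi_psi]; exact ha
    · have : phi (psi a + ε • b) = phi x := by
        rw [phi_add, phi_smul, phi_psi]; exact hab
      have := congrArg psi this
      rwa [psi_phi, psi_phi] at this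

/-- the body: a product of two triangles -/
def KK : Set E4 := phi ⁻¹' (poly vT cT ×ˢ poly vT cT)

/-- a multiple of its central symmetral: a product of two hexagons -/
def BB (s : ℝ) : Set E4 := phi ⁻¹' (poly vH (cH s) ×ˢ poly vH (cH s))

lemma poly_T_box : poly vT cT ⊆ box 3 := by
  intro p hp
  rw [mem_poly_vT] at hp
  simp only [cT, Matrix.cons_val] at hp
  obtain ⟨p1, p2, p3⟩ := hp
  refine ⟨⟨?_, ?_⟩, ⟨?_, ?_⟩⟩ <;> linarith

lemma poly_H_box (s : ℝ) : poly vH (cH s) ⊆ box s := by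
  intro p hp
  rw [mem_poly_vH] at hp
  simp only [cH] at hp
  obtain ⟨p1, p2, p3, p4, p5, p6⟩ := hp
  refine ⟨⟨?_, ?_⟩, ⟨?_, ?_⟩⟩ <;> linarith

lemma deriv_cond (s : ℝ) (hs : 0 < s) (hs3 : s ^ 3 = 1 / 12) (L : Set E4) (hL : IsCompact L)
    (hne : L.Nonempty) :
    HasDerivWithinAt
      (fun ε : ℝ => (volume (BB s + ε • L)).toReal
        - ((volume (KK + ε • L)).toReal + (volume (-KK + ε • L)).toReal) / 2)
      0 (Set.Ici 0) 0 := by
  have cT' : IsCompact (poly vT cT ×ˢ poly vT cT) :=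
    (isCompact_poly _ _ _ poly_T_box).prod (isCompact_poly _ _ _ poly_T_box)
  have cH' : IsCompact (poly vH (cH s) ×ˢ poly vH (cH s)) :=
    (isCompact_poly _ _ _ (poly_H_box s)).prod (isCompact_poly _ _ _ (poly_H_box s))
  have hL' : IsCompact (phi '' L) := hL.image continuous_phi
  have hne' : (phi '' L).Nonempty := hne.image _
  have hnL' : IsCompact (-(phi '' L)) := hL'.neg
  have hnne' : (-(phi '' L)).Nonempty := hne'.neg
  have dB := deriv_H s hs (phi '' L) hL' hne'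
  have dK := deriv_T (phi '' L) hL' hne'
  have dN := deriv_T (-(phi '' L)) hnL' hnne'
  have e1 : ∀ ε : ℝ, volume (BB s + ε • L) =
      volume (poly vH (cH s) ×ˢ poly vH (cH s) + ε • (phi '' L)) :=
    fun ε => volume_pre_add _ cH' L hL ε
  have e2 : ∀ ε : ℝ, volume (KK + ε • L) =
      volume (poly vT cT ×ˢ poly vT cT + ε • (phi '' L)) :=
    fun ε => volume_pre_add _ cT' L hL ε
  have e3 : ∀ ε : ℝ, volume (-KK + ε • L) =
      volume (poly vT cT ×ˢ poly vT cT + ε • (-(phi '' L))) := by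
    intro ε
    have h1 : -KK + ε • L = -(KK + ε • (-L)) := by
      rw [neg_add, smul_set_neg, neg_neg]
    have h2 : phi '' (-L) = -(phi '' L) := by
      ext p
      constructor
      · rintro ⟨x, hx, rfl⟩
        exact ⟨-x, hx, phi_neg x⟩
      · rintro ⟨x, hx, hxp⟩
        refine ⟨-x, by simpa using hx, ?_⟩
        rw [phi_neg, hxp, neg_neg]
    rw [h1, Measure.measure_neg, ← h2]
    exact volume_pre_add _ cT' (-L) hL.neg ε
  have key := dB.sub ((dK.add dN).div_const 2)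
  simp only [e1, e2, e3]
  refine HasDerivWithinAt.congr_deriv key ?_
  simp only [H1_neg, H2_neg, Prod.neg_mk, neg_neg, neg_zero, hs3]
  ring

lemma mem_KK (x : E4) : x ∈ KK ↔ (0 ≤ x 0 ∧ 0 ≤ x 1 ∧ x 0 + x 1 ≤ 1) ∧
    (0 ≤ x 2 ∧ 0 ≤ x 3 ∧ x 2 + x 3 ≤ 1) := by
  unfold KK
  rw [mem_preimage, mem_prod, mem_poly_vT, mem_poly_vT]
  simp only [cT, phi, Matrix.cons_val, Left.neg_nonpos_iff]

lemma mem_BB (s : ℝ) (x : E4) : x ∈ BB s ↔
    (x 0 ≤ s ∧ -x 0 ≤ s ∧ x 1 ≤ s ∧ -x 1 ≤ s ∧ x 0 + x 1 ≤ s ∧ -x 0 + -x 1 ≤ s) ∧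
    (x 2 ≤ s ∧ -x 2 ≤ s ∧ x 3 ≤ s ∧ -x 3 ≤ s ∧ x 2 + x 3 ≤ s ∧ -x 2 + -x 3 ≤ s) := by
  unfold BB
  rw [mem_preimage, mem_prod, mem_poly_vH, mem_poly_vH]
  simp only [cH, phi]

lemma max_aux (a b : ℝ) (ha : a ≤ 1) (hb : b ≤ 1) (hab : a + b ≤ 1) :
    0 ≤ max a 0 ∧ 0 ≤ max b 0 ∧ max a 0 + max b 0 ≤ 1 := by
  refine ⟨le_max_right _ _, le_max_right _ _, ?_⟩
  rcases max_cases a 0 with ⟨h1, h1'⟩ | ⟨h1, h1'⟩ <;>
    rcases max_cases b 0 with ⟨h2, h2'⟩ | ⟨h2, h2'⟩ <;> rw [h1, h2] <;> linarith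

lemma max_sub (a : ℝ) : max a 0 + -max (-a) 0 = a := by
  rcases max_cases a 0 with ⟨h1, h1'⟩ | ⟨h1, h1'⟩ <;>
    rcases max_cases (-a) 0 with ⟨h2, h2'⟩ | ⟨h2, h2'⟩ <;> rw [h1, h2] <;> linarith

lemma BB_eq (s : ℝ) (hs : 0 < s) :
    BB s = (0 : E4) +ᵥ ((2 * s) • ((1 / 2 : ℝ) • (KK + -KK))) := by
  rw [zero_vadd, smul_smul]
  have : 2 * s * (1 / 2) = s := by ring
  rw [this]
  ext x
  rw [mem_BB]
  constructor
  · rintro ⟨⟨a1, a2, a3, a4, a5, a6⟩, ⟨b1, b2, b3, b4, b5, b6⟩⟩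
    have inv : ∀ t : ℝ, t ≤ s → s⁻¹ * t ≤ 1 := by
      intro t ht
      rw [inv_mul_le_iff₀ hs]; linarith
    have z1 := inv _ a1
    have z2 := inv _ a2
    have z3 := inv _ a3
    have z4 := inv _ a4
    have z5 := inv _ a5
    have z6 := inv _ a6
    have w1 := inv _ b1
    have w2 := inv _ b2
    have w3 := inv _ b3
    have w4 := inv _ b4
    have w5 := inv _ b5
    have w6 := inv _ b6
    simp only [mul_add, mul_neg] at z1 z2 z3 z4 z5 z6 w1 w2 w3 w4 w5 w6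
    refine ⟨s⁻¹ • x, ⟨!₂[max (s⁻¹ * x 0) 0, max (s⁻¹ * x 1) 0, max (s⁻¹ * x 2) 0,
      max (s⁻¹ * x 3) 0], ?_, -!₂[max (-(s⁻¹ * x 0)) 0, max (-(s⁻¹ * x 1)) 0,
      max (-(s⁻¹ * x 2)) 0, max (-(s⁻¹ * x 3)) 0], ?_, ?_⟩, ?_⟩
    · rw [mem_KK]
      exact ⟨max_aux _ _ z1 z3 z5, max_aux _ _ w1 w3 w5⟩
    · rw [Set.mem_neg, neg_neg, mem_KK]
      exact ⟨max_aux _ _ z2 z4 z6, max_aux _ _ w2 w4 w6⟩
    · ext i
      fin_cases i <;> simp [max_sub]
    · show s • (s⁻¹ • x) = x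
      rw [smul_smul, mul_inv_cancel₀ hs.ne', one_smul]
  · rintro ⟨y, ⟨k, hk, l, hl, rfl⟩, rfl⟩
    rw [Set.mem_neg, mem_KK] at hl
    rw [mem_KK] at hk
    simp only [PiLp.smul_apply, PiLp.add_apply, PiLp.neg_apply, smul_eq_mul] at hl ⊢
    obtain ⟨⟨h1, h2, h3⟩, ⟨h4, h5, h6⟩⟩ := hk
    obtain ⟨⟨l1, l2, l3⟩, ⟨l4, l5, l6⟩⟩ := hl
    refine ⟨⟨?_, ?_, ?_, ?_, ?_, ?_⟩, ⟨?_, ?_, ?_, ?_, ?_, ?_⟩⟩ <;> nlinarith

lemma neg_BB (s : ℝ) : -BB s = BB s := by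
  ext x
  rw [Set.mem_neg, mem_BB, mem_BB]
  simp only [PiLp.neg_apply, neg_neg]
  tauto

lemma KK_not_symm : ¬ ∃ c : E4, ∀ y : E4, y ∈ KK ↔ (2 : ℝ) • c - y ∈ KK := by
  rintro ⟨c, hc⟩
  have h1 := (hc !₂[1, 0, 0, 0]).mp (by rw [mem_KK]; simp)
  have h2 := (hc !₂[0, 1, 0, 0]).mp (by rw [mem_KK]; simp)
  have h3 := (hc 0).mp (by rw [mem_KK]; simp)
  rw [mem_KK] at h1 h2 h3
  simp at h1 h2 h3
  linarith [h1.1.1, h2.1.2.1, h3.1.2.2]

theorem main :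
    ¬ (∀ n : ℕ, 3 ≤ n → ∀ K B : Set (EuclideanSpace ℝ (Fin n)),
      IsCompact K → Convex ℝ K → (interior K).Nonempty →
      IsCompact B → Convex ℝ B → (interior B).Nonempty → -B = B →
      (∀ L : Set (EuclideanSpace ℝ (Fin n)), IsCompact L → Convex ℝ L → L.Nonempty →
        HasDerivWithinAt
          (fun ε : ℝ => (MeasureTheory.volume (B + ε • L)).toReal
            - ((MeasureTheory.volume (K + ε • L)).toReal
                + (MeasureTheory.volume (-K + ε • L)).toReal) / 2)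
          0 (Set.Ici 0) 0) →
      (∃ r : ℝ, 0 < r ∧ ∃ x : EuclideanSpace ℝ (Fin n),
        B = x +ᵥ (r • ((1 / 2 : ℝ) • (K + -K)))) →
      ∃ c : EuclideanSpace ℝ (Fin n), ∀ y : EuclideanSpace ℝ (Fin n),
        y ∈ K ↔ (2 : ℝ) • c - y ∈ K) := by
  intro H
  set s : ℝ := (1 / 12 : ℝ) ^ (1 / 3 : ℝ) with hs
  have hs0 : 0 < s := by positivity
  have hs3 : s ^ 3 = 1 / 12 := by
    rw [hs, ← Real.rpow_natCast, ← Real.rpow_mul (by norm_num)]
    norm_num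
  refine KK_not_symm (H 4 (by norm_num) KK (BB s) ?_ ?_ ?_ ?_ ?_ ?_ (neg_BB s) ?_ ?_)
  · exact isCompact_pre _ (isCompact_poly _ _ _ poly_T_box)
  · exact convex_pre _ (convex_poly _ _)
  · refine interior_pre _ _ (1 / 4, 1 / 4) fun i => ?_
    fin_cases i <;> norm_num [lf, vT, cT]
  · exact isCompact_pre _ (isCompact_poly _ _ _ (poly_H_box s))
  · exact convex_pre _ (convex_poly _ _)
  · refine interior_pre _ _ (0, 0) fun i => ?_
    simp [lf, cH, hs0]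
  · intro L hL _ hne
    exact deriv_cond s hs0 hs3 L hL hne
  · exact ⟨2 * s, by positivity, 0, BB_eq s hs0⟩

end Pool.Agent.MP_c7fc41_gt
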